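import Pool.Agent.AT6.Stmts1
import Pool.Agent.Helper66_AT6.Tools
import Pool.Agent.Helper62_AT3.CO2
import Pool.Agent.Helper27_K9.PRT

/-!
# Squad AT6, row SVV: properties of the section components
-/

open scoped BigOperators

noncomputable section

namespace Pool.Agent.PP.T6.H69

open Pool.Agent.Helper51_AWC Pool.Agent.Helper79_WRA Pool.Agent.PP Pool.Agent.PP.KF
open Pool.Agent.PP.K9 Pool.Agent.PP.K9.H97 Pool.Agent.PP.H75 Pool.Agent.PP.T3 Pool.Agent.PP.T2

attribute [local instance] Ideal.Quotient.field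

section lp

variable {G : Type} [Group G] {ℓ : ℕ}

/-- the `ℓ`-part is unique -/
theorem lp_unique [Finite G] [Fact ℓ.Prime] {g u u' : G} (h : T5.Lp ℓ g u) (h' : T5.Lp ℓ g u') :
    u = u' := by
  obtain ⟨N, -, hN⟩ := H27.prt ℓ G
  have key : ∀ {w : G}, T5.Lp ℓ g w → g ^ N = w⁻¹ * g := by
    intro w hw
    have hc : Commute (w⁻¹ * g) w := by
      have := hw.com
      exact (((Commute.refl w).inv_right).mul_right this).symm
    have h1 := hN (w⁻¹ * g) w hc hw.reg hw.el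
    rw [← h1, hc.eq]
    congr 1
    group
  have h2 := (key h).symm.trans (key h')
  exact inv_injective (mul_right_cancel h2)

theorem el_conj {y t : G} (h : El ℓ y) : El ℓ (t * y * t⁻¹) := by
  obtain ⟨n, hn⟩ := h
  exact ⟨n, by rw [conj_pow, hn]; group⟩

theorem reg_conj {y t : G} (h : Reg ℓ y) : Reg ℓ (t * y * t⁻¹) := by
  unfold Reg at h ⊢
  have : orderOf (t * y * t⁻¹) = orderOf y := by
    have h1 := orderOf_injective (MulAut.conj t).toMonoidHom (MulAut.conj t).injective y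
    simpa using h1
  rwa [this]

theorem lp_conj {g v : G} (t : G) (h : T5.Lp ℓ g v) : T5.Lp ℓ (t * g * t⁻¹) (t * v * t⁻¹) := by
  refine ⟨el_conj h.el, ?_, ?_⟩
  · have h1 : v * g = g * v := h.com
    change t * v * t⁻¹ * (t * g * t⁻¹) = t * g * t⁻¹ * (t * v * t⁻¹)
    calc t * v * t⁻¹ * (t * g * t⁻¹) = t * (v * g) * t⁻¹ := by group
      _ = t * (g * v) * t⁻¹ := by rw [h1]
      _ = t * g * t⁻¹ * (t * v * t⁻¹) := by group
  · have h1 : (t * v * t⁻¹)⁻¹ * (t * g * t⁻¹) = t * (v⁻¹ * g) * t⁻¹ := by group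
    rw [h1]
    exact reg_conj h.reg

theorem lp_conj_iff {g v : G} (t : G) :
    T5.Lp ℓ (t * g * t⁻¹) (t * v * t⁻¹) ↔ T5.Lp ℓ g v := by
  refine ⟨fun h => ?_, lp_conj t⟩
  have h1 := lp_conj t⁻¹ h
  have e1 : t⁻¹ * (t * g * t⁻¹) * t⁻¹⁻¹ = g := by group
  have e2 : t⁻¹ * (t * v * t⁻¹) * t⁻¹⁻¹ = v := by group
  rwa [e1, e2] at h1

end lp

section gvc

variable {M : Ideal (integralClosure ℤ ℂ)} [M.IsMaximal] {G : Type} [Group G] [Finite G]

/-- conjugation -/
theorem gv_cj {v : G} {b : G → FF M} (hb : Ix (Cu v) b) {θ : G → ℂ}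
    (hθ : ∀ x y, θ (y * x * y⁻¹) = θ x) (t k : G) :
    gv M (Cu (t * v * t⁻¹)) (t * k * t⁻¹) (cj t b) θ = gv M (Cu v) k b θ := by
  let φ := T3.H62.cjE (u := t * v * t⁻¹) (u' := v) (x := t) rfl
  change (∑ᶠ c : Cu (t * v * t⁻¹), eh M (fun s : Cu (t * v * t⁻¹) => cj t b s) c *
      θ (t * k * t⁻¹ * c)) = ∑ᶠ c : Cu v, eh M (fun s : Cu v => b s) c * θ (k * c)
  rw [← finsum_comp_equiv φ.toEquiv]
  refine finsum_congr fun c => ?_
  have h1 := T3.H62.eh_equiv (M := M) φ hb.idem.1 c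
  have h2 : (fun y : Cu (t * v * t⁻¹) => b ((φ.symm y : Cu v) : G)) =
      fun s : Cu (t * v * t⁻¹) => cj t b s := rfl
  rw [h2] at h1
  change eh M (fun s : Cu (t * v * t⁻¹) => cj t b s) (φ c) * θ (t * k * t⁻¹ * (t * c * t⁻¹)) = _
  rw [h1]
  congr 1
  have h3 : t * k * t⁻¹ * (t * (c : G) * t⁻¹) = t * (k * c) * t⁻¹ := by group
  rw [h3, hθ]

theorem gv_cj_mem {v : G} {b : G → FF M} (hb : Ix (Cu v) b) {θ : G → ℂ}
    (hθ : ∀ x y, θ (y * x * y⁻¹) = θ x) {c : G} (hc : c ∈ Cu v) (k : G) :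
    gv M (Cu v) (c * k * c⁻¹) b θ = gv M (Cu v) k b θ := by
  have h1 := gv_cj hb hθ c k
  have h2 : c * v * c⁻¹ = v := by
    have : c * v = v * c := T3.H62.comm_Cu hc
    rw [this]
    group
  rw [h2, hb.inv hc] at h1
  exact h1

end gvc

/-- SVV: properties of the section components. -/
theorem svv : SvvStmt := by
  classical
  intro ℓ hℓ M _ hM G _ _ v b hb θ hθ
  have := Fintype.ofFinite G
  have P1 : ∀ g u : G, T5.Lp ℓ (u⁻¹ * g * u) v →
      sv M ℓ v b θ g = gv M (Cu v) (u⁻¹ * g * u) b θ := by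
    intro g u hu
    unfold sv
    rw [← finsum_comp_equiv (Equiv.mulLeft u)]
    have h1 : ∀ c : G, (∑ᶠ (_ : T5.Lp ℓ (((Equiv.mulLeft u) c)⁻¹ * g * (Equiv.mulLeft u) c) v),
        gv M (Cu v) (((Equiv.mulLeft u) c)⁻¹ * g * (Equiv.mulLeft u) c) b θ) =
        if c ∈ Cu v then gv M (Cu v) (u⁻¹ * g * u) b θ else 0 := by
      intro c
      have e1 : ((Equiv.mulLeft u) c)⁻¹ * g * (Equiv.mulLeft u) c =
          c⁻¹ * (u⁻¹ * g * u) * c⁻¹⁻¹ := by
        simp only [Equiv.coe_mulLeft]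
        group
      rw [e1]
      by_cases hc : c ∈ Cu v
      · rw [if_pos hc]
        have h2 : T5.Lp ℓ (c⁻¹ * (u⁻¹ * g * u) * c⁻¹⁻¹) v := by
          have h3 := lp_conj c⁻¹ hu
          have h4 : c⁻¹ * v * c⁻¹⁻¹ = v := by
            have : c * v = v * c := T3.H62.comm_Cu hc
            rw [inv_inv, mul_assoc, ← this]
            group
          rwa [h4] at h3
        rw [finsum_eq_if, if_pos h2]
        exact gv_cj_mem hb hθ (inv_mem hc) _
      · rw [if_neg hc, finsum_eq_if, if_neg]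
        intro h2
        apply hc
        have h3 := (lp_conj_iff (g := u⁻¹ * g * u) (v := c * v * c⁻¹) c⁻¹).1 (by
          have h4 : c⁻¹ * (c * v * c⁻¹) * c⁻¹⁻¹ = v := by group
          rwa [h4])
        have h4 := lp_unique hu h3
        rw [Subgroup.mem_centralizer_singleton_iff]
        have h5 : v * c = c * v * c⁻¹ * c := by rw [← h4]
        rw [h5]
        group
    rw [finsum_congr h1, finsum_eq_sum_of_fintype, Finset.sum_ite, Finset.sum_const_zero, add_zero,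
      Finset.sum_const, nsmul_eq_mul, ← mul_assoc]
    have h2 : (Finset.univ.filter fun c : G => c ∈ Cu v).card = Nat.card (Cu v) := by
      rw [Nat.card_eq_fintype_card, Fintype.card_subtype]
    rw [h2, inv_mul_cancel₀, one_mul]
    have : 0 < Nat.card (Cu v) := Nat.card_pos
    exact_mod_cast this.ne'
  have P2 : ∀ g : G, (∀ u : G, ¬ T5.Lp ℓ (u⁻¹ * g * u) v) → sv M ℓ v b θ g = 0 := by
    intro g hg
    unfold sv
    have h1 : ∀ u : G, (∑ᶠ (_ : T5.Lp ℓ (u⁻¹ * g * u) v), gv M (Cu v) (u⁻¹ * g * u) b θ) = 0 := by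
      intro u
      rw [finsum_eq_if, if_neg (hg u)]
    rw [finsum_congr h1, finsum_zero, mul_zero]
  refine ⟨P1, P2, ?_, ?_, ?_⟩
  · intro x y
    unfold sv
    congr 1
    rw [← finsum_comp_equiv (Equiv.mulLeft y)]
    refine finsum_congr fun u => ?_
    have e1 : ((Equiv.mulLeft y) u)⁻¹ * (y * x * y⁻¹) * (Equiv.mulLeft y) u = u⁻¹ * x * u := by
      simp only [Equiv.coe_mulLeft]
      group
    rw [e1]
  · intro hr x
    by_cases hx : ∃ u : G, T5.Lp ℓ (u⁻¹ * x * u) v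
    · obtain ⟨u, hu⟩ := hx
      rw [P1 x u hu, H66.gv_eq_fv]
      exact H66.rm_finsum _ fun g => (RM M).mul_mem (H66.hat_mem hb g) (hr _)
    · rw [P2 x (fun u hu => hx ⟨u, hu⟩)]
      exact (RM M).zero_mem
  · intro t g
    unfold sv
    have hcard : Nat.card (Cu (t * v * t⁻¹)) = Nat.card (Cu v) :=
      (Nat.card_congr (T3.H62.cjE (u := t * v * t⁻¹) (u' := v) (x := t) rfl).toEquiv).symm
    rw [hcard]
    congr 1
    rw [← finsum_comp_equiv (Equiv.mulRight t) (f := fun u : G =>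
      ∑ᶠ (_ : T5.Lp ℓ (u⁻¹ * g * u) v), gv M (Cu v) (u⁻¹ * g * u) b θ)]
    refine finsum_congr fun u => ?_
    have e1 : u⁻¹ * g * u = t * (((Equiv.mulRight t) u)⁻¹ * g * (Equiv.mulRight t) u) * t⁻¹ := by
      simp only [Equiv.coe_mulRight]
      group
    rw [e1]
    refine finsum_congr_Prop (propext (lp_conj_iff t)) fun _ => ?_
    exact gv_cj hb hθ t _

end Pool.Agent.PP.T6.H69
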