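import Pool.Agent.AT6.Stmts1
import Pool.Agent.Helper66_AT6.Tools
import Pool.Agent.Helper20_PP.Fun
import Pool.Agent.Helper46_PP.Alg

/-!
# Squad AT6, row DIV: idempotents whose residue vanishes on the centraliser of `D ^ (ℓ ^ c)`
-/

open scoped BigOperators

noncomputable section

namespace Pool.Agent.PP.T6.H69

open Pool.Agent.Helper51_AWC Pool.Agent.Helper79_WRA Pool.Agent.PP Pool.Agent.PP.KF
open Pool.Agent.PP.K9 Pool.Agent.PP.K9.H97 Pool.Agent.PP.H75 Pool.Agent.PP.T3 Pool.Agent.PP.T2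

attribute [local instance] Ideal.Quotient.field

section fvm

variable {G : Type} [Group G] [Fintype G]

theorem mulF_sum (p r : G → ℂ) (x : G) : mulF p r x = ∑ t, p t * r (t⁻¹ * x) :=
  finsum_eq_sum_of_fintype _

theorem fv_sum (r : G → ℂ) (z : G) (θ : G → ℂ) : T8.fv r z θ = ∑ x, r x * θ (z * x) :=
  finsum_eq_sum_of_fintype _

/-- the value at a product -/
theorem fv_mul (p r : G → ℂ) (z : G) (θ : G → ℂ) :
    T8.fv (mulF p r) z θ = ∑ t, p t * T8.fv r (z * t) θ := by
  rw [fv_sum]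
  have h1 : ∀ y, mulF p r y * θ (z * y) = ∑ t, p t * r (t⁻¹ * y) * θ (z * y) := by
    intro y
    rw [mulF_sum, Finset.sum_mul]
  rw [Finset.sum_congr rfl fun y _ => h1 y, Finset.sum_comm]
  refine Finset.sum_congr rfl fun t _ => ?_
  rw [fv_sum, ← Equiv.sum_comp (Equiv.mulLeft t), Finset.mul_sum]
  refine Finset.sum_congr rfl fun x _ => ?_
  simp only [Equiv.coe_mulLeft, inv_mul_cancel_left]
  rw [mul_assoc z t x]
  ring

theorem fv_add (p r : G → ℂ) (z : G) (θ : G → ℂ) :
    T8.fv (p + r) z θ = T8.fv p z θ + T8.fv r z θ := by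
  rw [fv_sum, fv_sum, fv_sum, ← Finset.sum_add_distrib]
  refine Finset.sum_congr rfl fun x _ => ?_
  rw [Pi.add_apply]
  ring

theorem fv_conj {q θ : G → ℂ} {d : G} (hq : ∀ x, q (d * x * d⁻¹) = q x)
    (hθ : ∀ x y, θ (y * x * y⁻¹) = θ x) (k : G) :
    T8.fv q (d * k * d⁻¹) θ = T8.fv q k θ := by
  rw [fv_sum, fv_sum, ← Equiv.sum_comp (MulAut.conj d).toEquiv]
  refine Finset.sum_congr rfl fun x _ => ?_
  have e1 : (MulAut.conj d).toEquiv x = d * x * d⁻¹ := rfl
  rw [e1, hq]
  congr 1
  have e2 : d * k * d⁻¹ * (d * x * d⁻¹) = d * (k * x) * d⁻¹ := by group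
  rw [e2, hθ]

/-- invariance under the elements of `D` -/
def Iv (D : Subgroup G) (q : G → ℂ) : Prop := ∀ d ∈ D, ∀ x, q (d * x * d⁻¹) = q x

theorem iv_mul {D : Subgroup G} {p q : G → ℂ} (hp : Iv D p) (hq : Iv D q) : Iv D (mulF p q) := by
  intro d hd x
  rw [mulF_sum, mulF_sum, ← Equiv.sum_comp (MulAut.conj d).toEquiv]
  refine Finset.sum_congr rfl fun t _ => ?_
  have e1 : (MulAut.conj d).toEquiv t = d * t * d⁻¹ := rfl
  rw [e1, hp d hd]
  congr 1
  have e2 : (d * t * d⁻¹)⁻¹ * (d * x * d⁻¹) = d * (t⁻¹ * x) * d⁻¹ := by group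
  rw [e2, hq d hd]

theorem rm_mul {M : Ideal (integralClosure ℤ ℂ)} [M.IsMaximal] {p q : G → ℂ}
    (hp : ∀ x, p x ∈ RM M) (hq : ∀ x, q x ∈ RM M) (x : G) : mulF p q x ∈ RM M := by
  rw [mulF_sum]
  exact (RM M).sum_mem fun t _ => (RM M).mul_mem (hp _) (hq _)

end fvm

/-- DIV: idempotents whose residue vanishes on the centraliser of `D ^ (ℓ ^ c)`. -/
theorem div (hP : PwnStmt) (hO : Or6Stmt) : DivStmt := by
  classical
  intro ℓ hℓ M _ hM G _ _ D hDp hDab c J hJr hJJ hJD hJ0 θ hθ hθr g hg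
  have := Fintype.ofFinite G
  set C : Subgroup G := Subgroup.centralizer (Uw (ℓ ^ c) D : Set G) with hC
  -- `D` normalises `C`
  have hUD : Uw (ℓ ^ c) D ≤ D := by
    unfold Uw
    rw [Subgroup.closure_le]
    rintro _ ⟨x, hx, rfl⟩
    exact D.pow_mem hx _
  have hCD : ∀ d ∈ D, ∀ x, x ∈ C → d * x * d⁻¹ ∈ C := by
    intro d hd x hx
    rw [hC, Subgroup.mem_centralizer_iff] at hx ⊢
    intro w hw
    have h1 : w * d = d * w := hDab w (hUD hw) d hd
    have h2 : w * x = x * w := hx w hw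
    have h3 : w * d⁻¹ = d⁻¹ * w := hDab w (hUD hw) d⁻¹ (D.inv_mem hd)
    calc w * (d * x * d⁻¹) = (w * d) * x * d⁻¹ := by group
      _ = d * (w * x) * d⁻¹ := by rw [h1]; group
      _ = d * x * (w * d⁻¹) := by rw [h2]; group
      _ = d * x * d⁻¹ * w := by rw [h3]; group
  have hCD' : ∀ d ∈ D, ∀ x, d * x * d⁻¹ ∈ C ↔ x ∈ C := by
    intro d hd x
    refine ⟨fun h => ?_, hCD d hd x⟩
    have h1 := hCD d⁻¹ (D.inv_mem hd) _ h
    have h2 : d⁻¹ * (d * x * d⁻¹) * d⁻¹⁻¹ = x := by group
    rwa [h2] at h1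
  -- the two parts
  set b : G → ℂ := fun x => if x ∈ C then J x else 0 with hb
  set a : G → ℂ := fun x => if x ∈ C then 0 else J x with ha
  have hab : J = b + a := by
    funext x
    rw [Pi.add_apply, hb, ha]
    by_cases hx : x ∈ C
    · simp [hx]
    · simp [hx]
  have hbr : ∀ x, b x ∈ RM M := by
    intro x
    rw [hb]
    by_cases hx : x ∈ C
    · simp only [hx, if_true]
      exact hJr x
    · simp only [hx, if_false]
      exact (RM M).zero_mem
  have har : ∀ x, a x ∈ RM M := by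
    intro x
    rw [ha]
    by_cases hx : x ∈ C
    · simp only [hx, if_true]
      exact (RM M).zero_mem
    · simp only [hx, if_false]
      exact hJr x
  have hbI : Iv D b := by
    intro d hd x
    simp only [hb, hCD' d hd x, hJD d hd x]
  have haI : Iv D a := by
    intro d hd x
    simp only [ha, hCD' d hd x, hJD d hd x]
  have hJI : Iv D J := hJD
  have hb0 : ∀ x, rr M (b x) = 0 := by
    intro x
    rw [hb]
    by_cases hx : x ∈ C
    · simp only [hx, if_true]
      exact hJ0 x hx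
    · simp only [hx, if_false]
      exact rr_zero
  -- the key divisibility
  have key : ∀ p q : G → ℂ, (∀ x, p x ∈ RM M) → (∀ x, q x ∈ RM M) → Iv D p → Iv D q →
      Dv M ((ℓ : ℂ) ^ c) (T8.fv (mulF p (mulF a q)) g θ) := by
    intro p q hp hq hpI hqI
    have h1 : T8.fv (mulF p (mulF a q)) g θ =
        ∑ x, a x * ∑ t, p t * T8.fv q (g * t * x) θ := by
      rw [fv_mul]
      have h2 : ∀ t, p t * T8.fv (mulF a q) (g * t) θ =
          ∑ x, a x * (p t * T8.fv q (g * t * x) θ) := by
        intro t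
        rw [fv_mul, Finset.mul_sum]
        refine Finset.sum_congr rfl fun x _ => ?_
        ring
      rw [Finset.sum_congr rfl fun t _ => h2 t, Finset.sum_comm]
      refine Finset.sum_congr rfl fun x _ => ?_
      rw [Finset.mul_sum]
    set F : G → ℂ := fun x => a x * ∑ t, p t * T8.fv q (g * t * x) θ with hF
    have hFI : ∀ d ∈ D, ∀ x, F (d * x * d⁻¹) = F x := by
      intro d hd x
      rw [hF]
      simp only []
      rw [haI d hd]
      congr 1
      rw [← Equiv.sum_comp (MulAut.conj d).toEquiv]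
      refine Finset.sum_congr rfl fun t _ => ?_
      have e1 : (MulAut.conj d).toEquiv t = d * t * d⁻¹ := rfl
      rw [e1, hpI d hd]
      congr 1
      have h3 : g * d = d * g := ((Subgroup.mem_centralizer_iff.1 hg) d hd).symm
      have e2 : g * (d * t * d⁻¹) * (d * x * d⁻¹) = d * (g * t * x) * d⁻¹ := by
        calc g * (d * t * d⁻¹) * (d * x * d⁻¹) = (g * d) * t * x * d⁻¹ := by group
          _ = d * (g * t * x) * d⁻¹ := by rw [h3]; group
      rw [e2]
      exact fv_conj (hqI d hd) hθ _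
    have hFr : ∀ x, F x ∈ RM M := by
      intro x
      refine (RM M).mul_mem (har x) ((RM M).sum_mem fun t _ => (RM M).mul_mem (hp t) ?_)
      rw [fv_sum]
      exact (RM M).sum_mem fun y _ => (RM M).mul_mem (hq y) (hθr _)
    have h3 := hO ℓ M G D hDp hDab c {x | x ∉ C} (fun d hd x hx h => hx ((hCD' d hd x).1 h))
      (fun x hx => hx) F hFr hFI
    have h4 : ∑ᶠ (x : G) (_ : x ∈ {x | x ∉ C}), F x = ∑ x, F x := by
      rw [finsum_eq_sum_of_fintype]
      refine Finset.sum_congr rfl fun x _ => ?_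
      by_cases hx : x ∈ C
      · rw [finsum_eq_if, if_neg (fun h => h hx)]
        rw [hF]
        simp only [ha, hx, if_true, zero_mul]
      · rw [finsum_eq_if, if_pos (show x ∈ {x | x ∉ C} from hx)]
    rw [h4] at h3
    rw [h1]
    exact h3
  -- the telescope
  have hone : ∀ x : G, dl ℂ (1 : G) x ∈ RM M := by
    intro x
    by_cases hx : x = 1
    · have : dl ℂ (1 : G) x = 1 := by simp [dl, hx]
      rw [this]
      exact (RM M).one_mem
    · have : dl ℂ (1 : G) x = 0 := by simp [dl, hx]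
      rw [this]
      exact (RM M).zero_mem
  have honeI : Iv D (dl ℂ (1 : G)) := by
    intro d _ x
    have : d * x * d⁻¹ = 1 ↔ x = 1 := by
      constructor
      · intro h
        have h2 : d⁻¹ * (d * x * d⁻¹) * d = d⁻¹ * 1 * d := by rw [h]
        have h3 : d⁻¹ * (d * x * d⁻¹) * d = x := by group
        rw [h3] at h2
        rw [h2]
        group
      · intro h
        rw [h]
        group
    simp [dl, this]
  have tel : ∀ n : ℕ, ∀ p : G → ℂ, (∀ x, p x ∈ RM M) → Iv D p →
      Dv M ((ℓ : ℂ) ^ c) (T8.fv (mulF p (J - T8.pw b (n + 1))) g θ) := by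
    intro n
    induction n with
    | zero =>
      intro p hp hpI
      have e1 : J - T8.pw b (0 + 1) = mulF a (dl ℂ (1 : G)) := by
        have e2 : T8.pw b (0 + 1) = b := by
          change mulF b (T8.pw b 0) = b
          have e3 : T8.pw b 0 = dl ℂ (1 : G) := by
            funext x
            simp [T8.pw, dl]
          rw [e3, H46.mulF_one]
        rw [e2, H46.mulF_one, hab]
        funext x
        simp
      rw [e1]
      exact key p _ hp hone hpI honeI
    | succ n ih =>
      intro p hp hpI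
      have e1 : J - T8.pw b (n + 1 + 1) = mulF a J + mulF b (J - T8.pw b (n + 1)) := by
        have e2 : T8.pw b (n + 1 + 1) = mulF b (T8.pw b (n + 1)) := rfl
        have e3 : mulF a J = J - mulF b J := by
          have e4 : a = J - b := by
            rw [hab]
            funext x
            simp
          rw [e4, H20.sub_mulF, hJJ]
        rw [e2, H20.mulF_sub, e3]
        funext x
        simp
      rw [e1, H20.mulF_add, fv_add, ← H20.mulF_assoc p b]
      exact H66.dv_add (key p J hp hJr hpI hJI)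
        (ih (mulF p b) (rm_mul hp hbr) (iv_mul hpI hbI))
  obtain ⟨n, hn⟩ := hP ℓ M hM G b hbr hb0 c
  have hn' : ∀ x, Dv M ((ℓ : ℂ) ^ c) (T8.pw b (n + 1) x) := by
    intro x
    change Dv M _ (mulF b (T8.pw b n) x)
    rw [mulF_sum]
    exact H66.dv_sum _ _ fun t _ => H66.dv_mul_left (hbr t) (hn _)
  have h1 := tel n (dl ℂ (1 : G)) hone honeI
  rw [H46.one_mulF] at h1
  have h2 : J = (J - T8.pw b (n + 1)) + T8.pw b (n + 1) := by
    funext x
    simp
  rw [h2, fv_add]
  refine H66.dv_add h1 ?_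
  rw [fv_sum]
  exact H66.dv_sum _ _ fun x _ => H66.dv_mul_right (hn' x) (hθr _)

end Pool.Agent.PP.T6.H69
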